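import Pool.Agent.W600.Alg.ArithHyp

/-!
# Lang's conjecture (groupless versus arithmetically hyperbolic) for multi-cyclic covers, `K ≤ 0`

`X` is the projective variety in the weighted projective space `P(1, …, 1, e 1, …, e r)` with
the equations `G j (x) = 0` (of degree `d j`) and `w i ^ m i = F i (x)` (of degree `m i * e i`)
over an algebraically closed field `k` of characteristic `0`, and
`K = O(∑ (m i - 1) e i + ∑ d j - n - 1)` is at most `0`. There are a non-constant morphism from an
elliptic curve to `X`, and a finitely generated subring `A` of `k` such that the model of `X` over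
`A` (in the weighted projective space over `A`) has infinitely many `A`-points.
-/

set_option autoImplicit false

namespace Pool.Agent.Results.MP_c7af3c_ag.CoversArithmetic

open MvPolynomial Pool.Agent.W600.Alg

theorem result {k : Type} [Field k] [IsAlgClosed k] [CharZero k] {n r g : ℕ}
    {m : Fin r → ℕ} (hm : ∀ i, 2 ≤ m i)
    {F : Fin r → MvPolynomial (Fin (n + 1)) k} {e : Fin r → ℕ} (he : ∀ i, 0 < e i)
    (hF : ∀ i, (F i).IsHomogeneous (m i * e i))
    {G : Fin g → MvPolynomial (Fin (n + 1)) k} {d : Fin g → ℕ} (hG : ∀ i, (G i).IsHomogeneous (d i))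
    (hK : ∑ i, (m i - 1) * e i + ∑ j, d j ≤ n + 1)
    (h0 : ∑ i, (m i - 1) * e i + ∑ j, d j = n + 1 →
      (∃ i, 3 ∣ m i ∨ 4 ∣ m i) ∨ 2 ≤ ∑ i with 2 ∣ m i, e i)
    (h0' : ∑ i, (m i - 1) * e i + ∑ j, d j = n → 0 < r)
    (hX : ∃ P ∈ Pts m F G 1, ∀ i, eval P.1 (F i) ≠ 0) :
    ¬ Groupless e (Pts m F G 1) ∧ ¬ ArithHyp m e F G :=
  not_arith hm he hF hG hK h0 h0' hX

end Pool.Agent.Results.MP_c7af3c_ag.CoversArithmetic
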